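import Pool.Agent.Q61.Thin.Semi

/-!
# MP_0e8110_lc: thin rays and unbounded integer cubic minimization

A polynomial of degree at most three with real coefficients is unbounded below on the integer
points of a rational polyhedron `P ⊆ ℝⁿ` exactly when `P` has an unbounded thin ray for it,
in every dimension `n`.
-/

namespace Pool.Agent.Results.MP_0e8110_lc.ThinRays

open Filter Topology Pointwise Pool.Agent.Q61.Thin

/-- The rational polyhedron `{x ∈ ℝⁿ : A x ≤ b}`. -/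
def polyhedron {m n : ℕ} (A : Matrix (Fin m) (Fin n) ℚ) (b : Fin m → ℚ) :
    Set (EuclideanSpace ℝ (Fin n)) :=
  {x | ∀ i, ∑ j, (A i j : ℝ) * x j ≤ (b i : ℝ)}

/-- The integer points of `ℝⁿ`. -/
def intPoints (n : ℕ) : Set (EuclideanSpace ℝ (Fin n)) := {x | ∀ i, ∃ k : ℤ, x i = k}

/-- The set `R(y,d) = {y + t d : t ≥ 0}`. -/
def ray {n : ℕ} (y d : EuclideanSpace ℝ (Fin n)) : Set (EuclideanSpace ℝ (Fin n)) :=
  {x | ∃ t : ℝ, 0 ≤ t ∧ x = y + t • d}

/-- `R(y,d)` is a ray of `P`. -/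
def IsRayOf {n : ℕ} (P : Set (EuclideanSpace ℝ (Fin n))) (y d : EuclideanSpace ℝ (Fin n)) : Prop :=
  d ≠ 0 ∧ ray y d ⊆ P

/-- The infimum of the polynomial function `f` over `S` is `-∞`. -/
def UnboundedBelowOn {n : ℕ} (f : MvPolynomial (Fin n) ℝ)
    (S : Set (EuclideanSpace ℝ (Fin n))) : Prop :=
  ∀ B : ℝ, ∃ x ∈ S, MvPolynomial.eval (fun i => x i) f < B

/-- `R(y,d)` is an unbounded thin ray of `P` for `f`. -/
def IsUnboundedThinRay {n : ℕ} (f : MvPolynomial (Fin n) ℝ)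
    (P : Set (EuclideanSpace ℝ (Fin n))) (y d : EuclideanSpace ℝ (Fin n)) : Prop :=
  IsRayOf P y d ∧ ∀ ε : ℝ, 0 < ε →
    UnboundedBelowOn f (P ∩ intPoints n ∩ (ray y d + Metric.closedBall 0 ε))

/-- The linear map `ℝᴺ → ℝⁿ` extending `h : ℕᴺ → ℤⁿ`. -/
noncomputable def extLin {N n : ℕ} (h : (Fin N → ℕ) →+ (Fin n → ℤ)) :
    (Fin N → ℝ) →ₗ[ℝ] (Fin n → ℝ) :=
  ∑ j, (LinearMap.proj (R := ℝ) (φ := fun _ : Fin N => ℝ) j).smulRight
    (fun i => (h (Pi.single j 1) i : ℝ))

theorem extLin_apply {N n : ℕ} (h : (Fin N → ℕ) →+ (Fin n → ℤ)) (x : Fin N → ℝ) (i : Fin n) :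
    extLin h x i = ∑ j, x j * (h (Pi.single j 1) i : ℝ) := by
  simp [extLin, Finset.sum_apply]

theorem extLin_nat {N n : ℕ} (h : (Fin N → ℕ) →+ (Fin n → ℤ)) (z : Fin N → ℕ) :
    extLin h (fun j => (z j : ℝ)) = fun i => (h z i : ℝ) := by
  funext i
  rw [extLin_apply]
  have e : z = ∑ j, z j • (Pi.single j 1 : Fin N → ℕ) := by
    ext k
    simp [Finset.sum_apply, Pi.single_apply]
  conv_rhs => rw [e, map_sum]
  rw [Finset.sum_apply]
  push_cast
  refine Finset.sum_congr rfl fun j _ => ?_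
  rw [map_nsmul, Pi.smul_apply]
  simp

/-- The main implication. -/
theorem forward {m n : ℕ} (A : Matrix (Fin m) (Fin n) ℚ) (b : Fin m → ℚ)
    (f : MvPolynomial (Fin n) ℝ) (hf : f.totalDegree ≤ 3)
    (hunb : UnboundedBelowOn f (polyhedron A b ∩ intPoints n)) :
    ∃ y d, IsUnboundedThinRay f (polyhedron A b) y d := by
  obtain ⟨F, hF⟩ := isCub_poly f hf
  obtain ⟨S, hSfin, hSlin, hSeq⟩ := semi_rat A b
  -- unboundedness on one linear set
  have hS : ∀ B : ℝ, ∃ t ∈ S, ∃ z ∈ t, F.eval (fun i => (z i : ℝ)) < B := by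
    intro B
    obtain ⟨x, ⟨hxP, hxZ⟩, hxB⟩ := hunb B
    choose z hz using hxZ
    have hzS : z ∈ ⋃₀ S := by
      rw [← hSeq]
      intro i
      have h1 := hxP i
      have h2 : ((∑ j, A i j * (z j : ℚ) : ℚ) : ℝ) ≤ (b i : ℝ) := by
        push_cast
        refine le_trans (le_of_eq ?_) h1
        exact Finset.sum_congr rfl fun j _ => by rw [hz j]
      exact_mod_cast h2
    obtain ⟨t, ht, hzt⟩ := hzS
    refine ⟨t, ht, z, hzt, ?_⟩
    rw [hF]
    have e : (fun i => (z i : ℝ)) = fun i => x i := funext fun i => (hz i).symm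
    rw [e]
    exact hxB
  obtain ⟨t, htS, ht⟩ : ∃ t ∈ S, ∀ B : ℝ, ∃ z ∈ t, F.eval (fun i => (z i : ℝ)) < B := by
    by_contra hcon
    push Not at hcon
    choose! c hc using hcon
    obtain ⟨B, hB⟩ := (hSfin.image c).bddBelow
    obtain ⟨t, htS, z, hz, hlt⟩ := hS B
    have h1 := hc t htS z hz
    have h2 := hB (Set.mem_image_of_mem c htS)
    linarith
  obtain ⟨a, N, h, hteq⟩ := isLinearSet_iff_exists_fin_addMonoidHom.1 (hSlin t htS)
  have hmemP : ∀ μ : Fin N → ℕ, ∀ i, ∑ j, A i j * (((a + h μ) j : ℤ) : ℚ) ≤ b i := by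
    intro μ
    have h1 : a + h μ ∈ t := by
      rw [hteq]
      exact ⟨h μ, ⟨μ, rfl⟩, rfl⟩
    have h2 : a + h μ ∈ ⋃₀ S := ⟨t, htS, h1⟩
    rw [← hSeq] at h2
    exact h2
  -- the recession property
  have hrec : ∀ μ : Fin N → ℕ, ∀ i, ∑ j, A i j * ((h μ j : ℤ) : ℚ) ≤ 0 := by
    intro μ i
    by_contra hcon
    rw [not_le] at hcon
    set s := ∑ j, A i j * ((h μ j : ℤ) : ℚ) with hs
    obtain ⟨k, hk⟩ := exists_nat_gt ((b i - ∑ j, A i j * (a j : ℚ)) / s)
    rw [div_lt_iff₀ hcon] at hk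
    have h1 := hmemP (k • μ) i
    rw [map_nsmul] at h1
    have e : ∑ j, A i j * (((a + k • h μ) j : ℤ) : ℚ) =
        ∑ j, A i j * (a j : ℚ) + (k : ℚ) * s := by
      rw [hs, Finset.mul_sum, ← Finset.sum_add_distrib]
      refine Finset.sum_congr rfl fun j _ => ?_
      rw [Pi.add_apply, Pi.smul_apply, nsmul_eq_mul]
      push_cast
      ring
    rw [e] at h1
    linarith
  -- the cubic function on the orthant
  set av : Fin n → ℝ := fun i => (a i : ℝ) with hav
  set L := extLin h with hL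
  set G : Cub (Fin N → ℝ) := F.comp L av with hG
  have hGeval : ∀ μ : Fin N → ℕ, G.eval (fun j => (μ j : ℝ)) =
      F.eval (fun i => (((a + h μ) i : ℤ) : ℝ)) := by
    intro μ
    rw [hG, Cub.comp_eval, hL, extLin_nat]
    congr 1
    funext i
    simp [hav]
  have hGunb : ∀ B : ℝ, ∃ μ : Fin N → ℕ, G.eval (fun j => (μ j : ℝ)) < B := by
    intro B
    obtain ⟨z, hz, hzB⟩ := ht B
    rw [hteq] at hz
    obtain ⟨w, ⟨μ, rfl⟩, rfl⟩ := hz
    exact ⟨μ, by rw [hGeval]; exact hzB⟩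
  obtain ⟨y, D, hy, hD, hthin⟩ := thin_orthant G hGunb
  -- a point `a + L x`, `x ≥ 0`, lies in the polyhedron
  have hLrec : ∀ x : Fin N → ℝ, 0 ≤ x → ∀ i, ∑ j, (A i j : ℝ) * L x j ≤ 0 := by
    intro x hx i
    have e : ∑ j, (A i j : ℝ) * L x j =
        ∑ k, x k * ((∑ j, A i j * ((h (Pi.single k 1) j : ℤ) : ℚ) : ℚ) : ℝ) := by
      simp_rw [hL, extLin_apply]
      push_cast
      simp_rw [Finset.mul_sum]
      rw [Finset.sum_comm]
      refine Finset.sum_congr rfl fun k _ => Finset.sum_congr rfl fun j _ => ?_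
      ring
    rw [e]
    refine Finset.sum_nonpos fun k _ => mul_nonpos_of_nonneg_of_nonpos (hx k) ?_
    exact_mod_cast hrec (Pi.single k 1) i
  have hPmem : ∀ x : Fin N → ℝ, 0 ≤ x → WithLp.toLp 2 (av + L x) ∈ polyhedron A b := by
    intro x hx i
    have h0 := hmemP 0 i
    rw [map_zero, add_zero] at h0
    have h0' : ∑ j, (A i j : ℝ) * av j ≤ (b i : ℝ) := by
      have : ((∑ j, A i j * (a j : ℚ) : ℚ) : ℝ) ≤ (b i : ℝ) := by exact_mod_cast h0
      push_cast at this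
      exact this
    have h1 := hLrec x hx i
    have e : ∑ j, (A i j : ℝ) * (WithLp.toLp 2 (av + L x) : EuclideanSpace ℝ (Fin n)) j =
        ∑ j, (A i j : ℝ) * av j + ∑ j, (A i j : ℝ) * L x j := by
      rw [← Finset.sum_add_distrib]
      refine Finset.sum_congr rfl fun j _ => ?_
      show (A i j : ℝ) * (av j + L x j) = _
      ring
    rw [e]
    linarith
  -- the linear map into Euclidean space
  set T : (Fin N → ℝ) →ₗ[ℝ] EuclideanSpace ℝ (Fin n) :=
    ((WithLp.linearEquiv 2 ℝ (Fin n → ℝ)).symm : (Fin n → ℝ) →ₗ[ℝ] EuclideanSpace ℝ (Fin n)).comp L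
    with hT
  have hTval : ∀ x, T x = WithLp.toLp 2 (L x) := fun x => rfl
  obtain ⟨C, hC0, hC⟩ : ∃ C : ℝ, 0 < C ∧ ∀ x, ‖T x‖ ≤ C * ‖x‖ := by
    refine ⟨‖T.toContinuousLinearMap‖ + 1, by positivity, fun x => ?_⟩
    have h1 := T.toContinuousLinearMap.le_opNorm x
    have h2 : T.toContinuousLinearMap x = T x := rfl
    rw [h2] at h1
    nlinarith [norm_nonneg x]
  have hto : ∀ u v : Fin n → ℝ, (WithLp.toLp 2 (u + v) : EuclideanSpace ℝ (Fin n)) =
      WithLp.toLp 2 u + WithLp.toLp 2 v := fun u v => rfl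
  have hfeval : ∀ μ : Fin N → ℕ, MvPolynomial.eval
      (fun i => (WithLp.toLp 2 (av + L (fun j => (μ j : ℝ))) : EuclideanSpace ℝ (Fin n)) i) f =
      G.eval (fun j => (μ j : ℝ)) := by
    intro μ
    rw [hG, Cub.comp_eval, hF]
  refine ⟨WithLp.toLp 2 av + T y, T D, ⟨?_, ?_⟩, ?_⟩
  · -- the direction is nonzero
    intro hz
    have hLD : L D = 0 := by
      have h1 : WithLp.toLp 2 (L D) = (0 : EuclideanSpace ℝ (Fin n)) := by rw [← hTval]; exact hz
      funext i
      have := congrArg (fun v : EuclideanSpace ℝ (Fin n) => v i) h1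
      exact this
    obtain ⟨M, hM⟩ := (isCompact_closedBall (av + L y) C).bddBelow_image
      (f := F.eval) F.continuous_eval.continuousOn
    obtain ⟨μ, ⟨s, hs, hdist⟩, hlt⟩ := hthin 1 one_pos M
    have hmem : av + L (fun j => (μ j : ℝ)) ∈ Metric.closedBall (av + L y) C := by
      rw [mem_closedBall_iff_norm]
      have e : av + L (fun j => (μ j : ℝ)) - (av + L y) =
          L ((fun j => (μ j : ℝ)) - (y + s • D)) := by
        rw [map_sub, map_add, map_smul, hLD, smul_zero, add_zero]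
        abel
      rw [e, pi_norm_le_iff_of_nonneg hC0.le]
      intro i
      have h1 := hC ((fun j => (μ j : ℝ)) - (y + s • D))
      have h2 : ‖L ((fun j => (μ j : ℝ)) - (y + s • D)) i‖ ≤
          ‖T ((fun j => (μ j : ℝ)) - (y + s • D))‖ := by
        exact PiLp.norm_apply_le (T ((fun j => (μ j : ℝ)) - (y + s • D))) i
      nlinarith
    have := hM (Set.mem_image_of_mem F.eval hmem)
    rw [hG, Cub.comp_eval] at hlt
    linarith
  · -- the ray lies in the polyhedron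
    rintro _ ⟨s, hs, rfl⟩
    have h1 := hPmem (y + s • D) (add_nonneg hy (smul_nonneg hs hD))
    have e : (WithLp.toLp 2 (av + L (y + s • D)) : EuclideanSpace ℝ (Fin n)) =
        WithLp.toLp 2 av + T y + s • T D := by
      rw [hto, ← hTval, map_add, map_smul, add_assoc]
    rw [← e]
    exact h1
  · -- thinness
    intro ε hε B
    obtain ⟨μ, ⟨s, hs, hdist⟩, hlt⟩ := hthin (ε / C) (by positivity) B
    refine ⟨WithLp.toLp 2 (av + L (fun j => (μ j : ℝ))), ⟨⟨?_, ?_⟩, ?_⟩, ?_⟩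
    · exact hPmem _ fun j => by simp
    · intro i
      refine ⟨(a + h μ) i, ?_⟩
      show av i + L (fun j => (μ j : ℝ)) i = _
      rw [hL, extLin_nat]
      simp [hav]
    · refine ⟨WithLp.toLp 2 av + T y + s • T D, ⟨s, hs, rfl⟩,
        T ((fun j => (μ j : ℝ)) - (y + s • D)), ?_, ?_⟩
      · rw [mem_closedBall_zero_iff]
        refine (hC _).trans ?_
        have := (mul_le_mul_of_nonneg_left hdist.le hC0.le)
        rwa [mul_div_cancel₀ _ hC0.ne'] at this
      · show WithLp.toLp 2 av + T y + s • T D + T ((fun j => (μ j : ℝ)) - (y + s • D)) = _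
        rw [hto, ← hTval, map_sub, map_add, map_smul]
        abel
    · rw [hfeval]
      exact hlt

/-- **Thin ray theorem for cubics.**  In every dimension `n`, a real polynomial `f` of degree at
most three is unbounded below on the integer points of a rational polyhedron `P` exactly when `P`
has an unbounded thin ray for `f`. -/
theorem result : ∀ (m n : ℕ) (A : Matrix (Fin m) (Fin n) ℚ) (b : Fin m → ℚ)
    (f : MvPolynomial (Fin n) ℝ), f.totalDegree ≤ 3 →
    (UnboundedBelowOn f (polyhedron A b ∩ intPoints n) ↔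
      ∃ y d, IsUnboundedThinRay f (polyhedron A b) y d) := by
  intro m n A b f hf
  refine ⟨forward A b f hf, ?_⟩
  rintro ⟨y, d, -, h⟩ B
  obtain ⟨x, hx, hB⟩ := h 1 one_pos B
  exact ⟨x, hx.1, hB⟩

end Pool.Agent.Results.MP_0e8110_lc.ThinRays
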